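import Pool.Agent.H68.LCS.Targets

/-!
# Measurability of the selected point (MP_5607ba_lc, row A_MPT)
-/

set_option autoImplicit false

open Set Filter Topology
open scoped Pointwise

namespace Pool.Agent.H62.LCS

open Pool.Agent.H93.CP Pool.Agent.H7.LP Pool.Agent.H7.LQ Pool.Agent.H68.LCS

theorem pf_MPT (h1 : T_PTX) (h2 : T_MSL) : T_MPT := by
  classical
  intro Ω F _ _ _ _ _ _ B K d hK hm hd
  refine measurable_of_isOpen fun O hO => ?_
  have hne : MeasurableSet {w | (K w).Nonempty} := by
    have := hm univ isClosed_univ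
    simpa using this
  have key : (fun w => slp B (K w) (d w)) ⁻¹' O =
      ({w | (K w).Nonempty} ∩ ⋃ n, {w | closure (B.U n) ⊆ O ∧
        (sl B (K w) n ∩ closure (B.U n)).Nonempty}) ∪
      ({w | (K w).Nonempty}ᶜ ∩ d ⁻¹' O) := by
    ext w
    by_cases hw : (K w).Nonempty
    · obtain ⟨z, hzK, hz, huniq, hO'⟩ := h1 F B (K w) (hK w) hw
      have hs : slp B (K w) (d w) = z := by
        have hex : ∃ z, ∀ n, z ∈ sl B (K w) n := ⟨z, hz⟩
        unfold slp
        rw [dif_pos hex]
        exact huniq _ hex.choose_spec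
      simp only [mem_preimage, hs, mem_union, mem_inter_iff, mem_setOf_eq, hw, true_and,
        mem_compl_iff, not_true_eq_false, false_and, or_false, mem_iUnion]
      rw [hO' O hO]
      constructor
      · rintro ⟨n, a, b⟩
        exact ⟨n, b, a⟩
      · rintro ⟨n, a, b⟩
        exact ⟨n, b, a⟩
    · have hs : slp B (K w) (d w) = d w := by
        unfold slp
        rw [dif_neg]
        rintro ⟨z, hz⟩
        exact hw ⟨z, hz 0⟩
      simp only [mem_preimage, hs, mem_union, mem_inter_iff, mem_setOf_eq, hw, false_and,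
        mem_compl_iff, not_false_eq_true, true_and, false_or]
  rw [key]
  refine (hne.inter (MeasurableSet.iUnion fun n => ?_)).union
    (hne.compl.inter (hd hO.measurableSet))
  by_cases hc : closure (B.U n) ⊆ O
  · have h3 := h2 Ω F B K hm n (closure (B.U n)) isClosed_closure
    simpa [hc] using h3
  · simp [hc]

end Pool.Agent.H62.LCS
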